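import Pool.Agent.Helper15.GS.GoalsD

/-! # Packet GS GTH: pointwise linear algebra -/

open scoped ComplexOrder Matrix

namespace Pool.Agent.Helper46.GS

open Pool.Agent.Helper15.GS

open scoped MatrixOrder in
theorem exists_root {n : ℕ} {A : Matrix (Fin n) (Fin n) ℂ} (hA : A.PosSemidef) :
    ∃ B : Matrix (Fin n) (Fin n) ℂ, A = Bᴴ * B :=
  CStarAlgebra.nonneg_iff_eq_star_mul_self.mp hA.nonneg

theorem gth : S_GTH := by
  intro n h θ P hh hθ hPP hPh htr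
  have hdet : IsUnit h.det := (Matrix.isUnit_iff_isUnit_det h).1 hh.isUnit
  have e1 : h⁻¹ * P = Pᴴ * h⁻¹ := by
    calc h⁻¹ * P = h⁻¹ * (P * h) * h⁻¹ := by
          rw [Matrix.mul_assoc, Matrix.mul_assoc, Matrix.mul_nonsing_inv _ hdet, Matrix.mul_one]
      _ = h⁻¹ * (h * Pᴴ) * h⁻¹ := by rw [hPh]
      _ = Pᴴ * h⁻¹ := by
          rw [← Matrix.mul_assoc, Matrix.nonsing_inv_mul _ hdet, Matrix.one_mul]
  obtain ⟨B, hB⟩ := exists_root hθ
  obtain ⟨C, hC⟩ := exists_root hh.inv.posSemidef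
  have e2 : h⁻¹ * P = (C * P)ᴴ * (C * P) := by
    calc h⁻¹ * P = h⁻¹ * P * P := by rw [Matrix.mul_assoc, hPP]
      _ = Pᴴ * h⁻¹ * P := by rw [e1]
      _ = (C * P)ᴴ * (C * P) := by
          rw [hC, Matrix.conjTranspose_mul]
          simp only [Matrix.mul_assoc]
  obtain ⟨Z, hZ⟩ : ∃ Z, Z = C * P := ⟨_, rfl⟩
  rw [← hZ] at e2
  have e3 : Matrix.trace (θ * h⁻¹ * P) = Matrix.trace ((B * Zᴴ)ᴴ * (B * Zᴴ)) := by
    rw [Matrix.mul_assoc, e2, hB, Matrix.conjTranspose_mul, Matrix.conjTranspose_conjTranspose,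
      Matrix.mul_assoc Z, Matrix.trace_mul_comm Z]
    simp only [Matrix.mul_assoc]
  have e4 : 0 ≤ Matrix.trace ((B * Zᴴ)ᴴ * (B * Zᴴ)) :=
    (Matrix.posSemidef_conjTranspose_mul_self _).trace_nonneg
  have e5 : Matrix.trace ((B * Zᴴ)ᴴ * (B * Zᴴ)) = 0 := by
    rw [e3] at htr
    rw [Complex.le_def] at e4
    exact Complex.ext htr (by simpa using e4.2.symm)
  have e6 : B * Zᴴ = 0 := Matrix.trace_conjTranspose_mul_self_eq_zero_iff.1 e5
  have e7 : Z * Bᴴ = 0 := by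
    have := congrArg Matrix.conjTranspose e6
    rwa [Matrix.conjTranspose_mul, Matrix.conjTranspose_conjTranspose,
      Matrix.conjTranspose_zero] at this
  have e8 : h⁻¹ * P * θ = 0 := by
    rw [e2, hB, Matrix.mul_assoc, ← Matrix.mul_assoc Z, e7, Matrix.zero_mul, Matrix.mul_zero]
  calc P * θ = h * (h⁻¹ * P * θ) := by
        rw [← Matrix.mul_assoc, ← Matrix.mul_assoc, Matrix.mul_nonsing_inv _ hdet, Matrix.one_mul]
    _ = 0 := by rw [e8, Matrix.mul_zero]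

end Pool.Agent.Helper46.GS
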