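import Pool.Agent.Helper15.GS.GoalsD
import Pool.Agent.Helper19.HS.LPR

/-! # Packet GS LPG: algebraic properties of the limit -/

open Complex Metric Set Filter Topology MeasureTheory
open scoped ContDiff ComplexConjugate ComplexOrder Manifold Matrix

namespace Pool.Agent.Helper46.GS

open Pool.Agent.Helper95.Lin Pool.Agent.Helper10.SP Pool.Agent.Helper57.HS
  Pool.Agent.Helper15.HS Pool.Agent.Helper15.GS Pool.Agent.Helper19.HS

universe u

variable {n : ℕ} {T : Set (Cn n)} {H : Cn n → Matrix (Fin n) (Fin n) ℂ} {d : ℕ → Cn n → ℝ}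
  {B : ℕ → Cn n → Matrix (Fin n) (Fin n) ℂ} {P : Cn n → Matrix (Fin n) (Fin n) ℂ}

/-- The limit of traces. -/
theorem ctx_trace (h : Ctx T H d B P) {a : Cn n → Matrix (Fin n) (Fin n) ℂ}
    (ha : ∀ i j, ContinuousOn (fun x => a x i j) T)
    (h0 : ∀ j, ∀ x ∈ T, 0 ≤ (Matrix.trace (a x * B j x)).re)
    (hlim : ∀ C ⊆ T, IsCompact C → Tendsto (fun j => ∫ x in C, d j x *
      (Matrix.trace (a x * B j x)).re) atTop (𝓝 0)) :
    ∀ x ∈ T, (Matrix.trace (a x * P x)).re = 0 := by
  have hall : ∀ x ∈ T, |(Matrix.trace (a x * P x)).re| ≤ 0 := by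
    refine h.key h.op subset_rfl ?_ ?_
    · exact (Complex.continuous_re.comp_continuousOn (cont_trace (cont_mul ha h.Pc))).abs
    intro C hCT hC
    obtain ⟨K, hK0, hK⟩ := bddM hC (f := a) fun i j => (ha i j).mono hCT
    have htc : ∀ j, ContinuousOn (fun x => (Matrix.trace (a x * B j x)).re) C := fun j =>
      (Complex.continuous_re.comp_continuousOn (cont_trace (cont_mul ha (h.Bc j)))).mono hCT
    refine ⟨max K 1, fun j x => Df (B j) P x + (Matrix.trace (a x * B j x)).re, ?_, ?_,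
      h.lim_add hCT hC htc (hlim C hCT hC)⟩
    · intro j
      exact (Df_cont (fun a c => (h.Bc j a c).mono hCT) fun a c => (h.Pc a c).mono hCT).add (htc j)
    · intro j x hx
      have hxT := hCT hx
      have hD0 : 0 ≤ Df (B j) P x := Df_nonneg _ _ _
      have h1 : ‖Matrix.trace (a x * (B j x - P x))‖ ≤ K * Df (B j) P x := by
        rw [Matrix.trace, show K * Df (B j) P x = ∑ c, K * ∑ p, ‖B j x p c - P x p c‖ by
          unfold Df
          rw [Finset.sum_comm, Finset.mul_sum]]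
        refine (norm_sum_le _ _).trans (Finset.sum_le_sum fun c _ => ?_)
        rw [Matrix.diag_apply]
        exact mulDf_left (hK x hx) c c
      have h2 : Matrix.trace (a x * P x) = Matrix.trace (a x * B j x) -
          Matrix.trace (a x * (B j x - P x)) := by
        rw [Matrix.mul_sub, Matrix.trace_sub]
        ring
      have h3 : |(Matrix.trace (a x * P x)).re| ≤ (Matrix.trace (a x * B j x)).re +
          K * Df (B j) P x := by
        rw [h2, Complex.sub_re]
        refine (abs_sub _ _).trans ?_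
        rw [abs_of_nonneg (h0 j x hxT)]
        have := (Complex.abs_re_le_norm (Matrix.trace (a x * (B j x - P x)))).trans h1
        linarith
      have h4 : K * Df (B j) P x ≤ max K 1 * Df (B j) P x :=
        mul_le_mul_of_nonneg_right (le_max_left _ _) hD0
      have h5 : (Matrix.trace (a x * B j x)).re ≤ max K 1 * (Matrix.trace (a x * B j x)).re := by
        have := mul_le_mul_of_nonneg_right (le_max_right K 1) (h0 j x hxT)
        linarith
      show |(Matrix.trace (a x * P x)).re| ≤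
        max K 1 * (Df (B j) P x + (Matrix.trace (a x * B j x)).re)
      linarith
  exact fun x hx => abs_eq_zero.1 (le_antisymm (hall x hx) (abs_nonneg _))

theorem lpg (hARRB : S_ARRB.{u}) (hMCAL : S_MCAL) : S_LPG.{u} := by
  intro n T G _ R hE h hh w hw k Z P hZc hZb hZh hZinv hP hconv hsq htr
  have hTo := hE.isOpen
  have hdet : ∀ x ∈ T, (h x).det ≠ 0 := fun x hx => (hh.posDef x hx).det_pos.ne'
  have hhi := ((hMCAL T hTo h h hh.smooth hh.smooth).2.2.2.1 hdet).1
  have hctx : Ctx T h w Z P := by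
    refine ⟨hTo, hw.cont, hw.nonneg, hZc, fun a c => (hP a c).continuousOn,
      fun a c => (hh.smooth a c).continuousOn, fun a c => (hhi a c).continuousOn, hh.posDef,
      hZb, hconv, hw.low, hZh⟩
  refine ⟨hctx.proj hsq, hctx.tr ?_ k htr, hctx.herm, ?_, ?_⟩
  · intro j x hx
    have h1 : Z j x = h x * (Z j x)ᴴ * (h x)⁻¹ := by
      rw [← hZh j x hx, Matrix.mul_assoc, Matrix.mul_nonsing_inv _ (hdet x hx).isUnit, mul_one]
    have h2 : Matrix.trace (Z j x) = conj (Matrix.trace (Z j x)) := by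
      conv_lhs => rw [h1]
      rw [Matrix.trace_mul_comm, ← Matrix.mul_assoc, Matrix.nonsing_inv_mul _ (hdet x hx).isUnit,
        one_mul, Matrix.trace_conjTranspose]
      rfl
    exact Complex.conj_eq_iff_im.1 h2.symm
  · intro U τ harr x₀ hx₀ u v
    obtain ⟨hUo, hτd, γ, hγ⟩ := harr
    have hmem : ∀ x ∈ U, x ∈ T ∧ τ x ∈ T := fun x hx => hE.mem γ x (τ x) (hγ x hx)
    obtain ⟨hA1, hA2, hA3, -⟩ := hARRB T R hE
    obtain ⟨U₁, τ₁, σ, hxU₁, hU₁T, hL₁, hτ₁, hinj₁, -⟩ := hA1 γ x₀ (τ x₀) (hγ x₀ hx₀)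
    have hev := hA3 γ U U₁ τ τ₁ ⟨hUo, hτd, hγ⟩ hL₁ x₀ hx₀ hxU₁ hτ₁.symm
    obtain ⟨V, hV, hVo, hxV⟩ := _root_.mem_nhds_iff.mp
      (Filter.inter_mem hev (Filter.inter_mem (hUo.mem_nhds hx₀) (hL₁.1.mem_nhds hxU₁)))
    have hVU : V ⊆ U := fun x hx => (hV hx).2.1
    have hinj : InjOn τ V := by
      intro x hx y hy hxy
      have e1 : τ x = τ₁ x := (hV hx).1
      have e2 : τ y = τ₁ y := (hV hy).1
      exact hinj₁ (hV hx).2.2 (hV hy).2.2 (by rw [← e1, ← e2, hxy])
    exact hctx.nat hVo (fun x hx => (hmem x (hVU hx)).1) (hτd.mono hVU)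
      (fun x hx => (hmem x (hVU hx)).2) (fun x hx => (hA2 γ U τ ⟨hUo, hτd, hγ⟩ x (hVU hx)).1)
      (fun j x hx => hw.inv j γ x (τ x) (hγ x (hVU hx))) hinj
      (fun j x hx u' v' => hZinv j U τ ⟨hUo, hτd, γ, hγ⟩ x (hVU hx) u' v') u v x₀ hxV
  · intro a ha h0 hlim
    exact ctx_trace hctx ha h0 hlim

end Pool.Agent.Helper46.GS
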